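import Pool.Agent.Y879.PR.Tup
import Pool.Agent.Y879.GL.Pattern

set_option autoImplicit false

/-!
The pairs `N ^ 2 + k + 1`, `(N + 1) ^ 2 - k` between consecutive squares, for EVERY large `N`: the `k` for which
both are almost prime have the expected density in every interval of length at least `N ^ θ`, and their gaps
follow the exponential (Gamma) laws.
-/

namespace Pool.Agent.Results.MP_e94e4b_nt.GapLawFixedSum

open Finset Filter Polynomial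
open Pool.Agent.Y879.AP Pool.Agent.Y879.GL Pool.Agent.Y879.PR Pool.Agent.W123.RP Pool.Agent.H373R2.T7
open Pool.Agent.TH464.PO Pool.Agent.TH464.PW Pool.Agent.W123.RU.Poly

/-- neither `N ^ 2 + k + 1` nor `(N + 1) ^ 2 - k` has a prime factor `p ≤ N ^ (1 / r)` -/
def Good (N r k : ℕ) : Prop :=
  ∀ p : ℕ, p.Prime → (p : ℝ) ≤ (N : ℝ) ^ (1 / (r : ℝ)) →
    ¬ (p : ℤ) ∣ (N : ℤ) ^ 2 + k + 1 ∧ ¬ (p : ℤ) ∣ ((N : ℤ) + 1) ^ 2 - k

/-- the number of excluded classes: `1` if `p` divides the sum `2 N ^ 2 + 2 N + 2` of the pairs, otherwise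
`2` -/
def nu (N p : ℕ) : ℕ := if p ∣ 2 * N ^ 2 + 2 * N + 2 then 1 else 2

/-- the density of the good numbers -/
noncomputable def V (N r : ℕ) : ℝ :=
  ∏ p ∈ (Icc 1 ⌊(N : ℝ) ^ (1 / (r : ℝ))⌋₊).filter Nat.Prime, (1 - (nu N p : ℝ) / p)

open Classical in
/-- the number of the good `k` in `(u, u + Y]` with fewer than `j` good numbers in `[k - T, k)` -/
noncomputable def Near (N r j T u Y : ℕ) : ℕ :=
  ((Ioc u (u + Y)).filter (fun k => Good N r k ∧ ((Ico (k - T) k).filter (Good N r)).card < j)).card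

/-- the forms `k + N ^ 2 + 1` and `(N + 1) ^ 2 - k` -/
noncomputable def fm (N : ℕ) : Fin 2 → ℤ[X] := fun i => lf ((![1, -1] : Fin 2 → ℤ) i)
  ((![(N : ℤ) ^ 2 + 1, ((N : ℤ) + 1) ^ 2] : Fin 2 → ℤ) i)

lemma fm_Q (N p k : ℕ) : Q (fm N) p k ↔ (p : ℤ) ∣ (N : ℤ) ^ 2 + k + 1 ∨ (p : ℤ) ∣ ((N : ℤ) + 1) ^ 2 - k := by
  unfold Q fm
  rw [Fin.exists_fin_two]
  simp only [lf_eval, Matrix.cons_val_zero, Matrix.cons_val_one]
  have e1 : (1 : ℤ) * (k : ℤ) + ((N : ℤ) ^ 2 + 1) = (N : ℤ) ^ 2 + k + 1 := by ring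
  have e2 : (-1 : ℤ) * (k : ℤ) + ((N : ℤ) + 1) ^ 2 = ((N : ℤ) + 1) ^ 2 - k := by ring
  rw [e1, e2]

lemma good_iff (N r k : ℕ) : Good N r k ↔ Sf (Q (fm N)) ⌊(N : ℝ) ^ (1 / (r : ℝ))⌋₊ k := by
  have key : ∀ p : ℕ, (¬ Q (fm N) p k ↔
      ¬ (p : ℤ) ∣ (N : ℤ) ^ 2 + k + 1 ∧ ¬ (p : ℤ) ∣ ((N : ℤ) + 1) ^ 2 - k) := by
    intro p
    rw [fm_Q, not_or]
  unfold Good Sf
  constructor
  · intro h q hq
    obtain ⟨hq1, hq2⟩ := mem_pz.1 hq
    exact (key q).2 (h q hq2 ((Nat.le_floor_iff (by positivity)).1 hq1))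
  · intro h q hq hqr
    exact (key q).1 (h q (mem_pz.2 ⟨Nat.le_floor hqr, hq⟩))

/-- the excluded classes -/
lemma nu_eq (N p : ℕ) (hp : p.Prime) : nuB (Q (fm N)) p = nu N p := by
  classical
  have hp0 : (0 : ℤ) < p := by exact_mod_cast hp.pos
  obtain ⟨a, ha⟩ : ∃ a : ℕ, a = ((-((N : ℤ) ^ 2 + 1)) % p).toNat := ⟨_, rfl⟩
  obtain ⟨b, hb⟩ : ∃ b : ℕ, b = ((((N : ℤ) + 1) ^ 2) % p).toNat := ⟨_, rfl⟩
  have ha1 : (a : ℤ) = (-((N : ℤ) ^ 2 + 1)) % p := by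
    rw [ha]
    exact Int.toNat_of_nonneg (Int.emod_nonneg _ hp0.ne')
  have hb1 : (b : ℤ) = (((N : ℤ) + 1) ^ 2) % p := by
    rw [hb]
    exact Int.toNat_of_nonneg (Int.emod_nonneg _ hp0.ne')
  have ha2 : a < p := by
    have := Int.emod_lt_of_pos (-((N : ℤ) ^ 2 + 1)) hp0
    rw [← ha1] at this
    exact_mod_cast this
  have hb2 : b < p := by
    have := Int.emod_lt_of_pos (((N : ℤ) + 1) ^ 2) hp0
    rw [← hb1] at this
    exact_mod_cast this
  have hcl : ∀ x : ℕ, x < p → ∀ c : ℤ, ∀ d : ℕ, d < p → (d : ℤ) = c % p → ((p : ℤ) ∣ c - x ↔ x = d) := by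
    intro x hx c d hd hdc
    rw [← Int.modEq_iff_dvd]
    unfold Int.ModEq
    rw [← hdc, Int.emod_eq_of_lt (by positivity) (by exact_mod_cast hx)]
    exact_mod_cast Iff.rfl
  have h1 : nuB (Q (fm N)) p = ((range p).filter (fun x => x = a ∨ x = b)).card := by
    unfold nuB
    apply card_iff
    intro x hx
    have hx := Finset.mem_range.1 hx
    rw [fm_Q]
    have e1 : (p : ℤ) ∣ (N : ℤ) ^ 2 + x + 1 ↔ x = a := by
      rw [← hcl x hx _ a ha2 ha1, ← dvd_neg, show -((N : ℤ) ^ 2 + x + 1) = -((N : ℤ) ^ 2 + 1) - x by ring]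
    have e2 : (p : ℤ) ∣ ((N : ℤ) + 1) ^ 2 - x ↔ x = b := hcl x hx _ b hb2 hb1
    rw [e1, e2]
  have h2 : (range p).filter (fun x => x = a ∨ x = b) = {a, b} := by
    ext x
    simp only [Finset.mem_filter, Finset.mem_range, Finset.mem_insert, Finset.mem_singleton]
    constructor
    · exact fun h => h.2
    · rintro (rfl | rfl)
      · exact ⟨ha2, Or.inl rfl⟩
      · exact ⟨hb2, Or.inr rfl⟩
  have h3 : a = b ↔ p ∣ 2 * N ^ 2 + 2 * N + 2 := by
    have e1 : (p : ℤ) ∣ (((N : ℤ) + 1) ^ 2) - (-((N : ℤ) ^ 2 + 1)) ↔ a = b := by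
      rw [← Int.modEq_iff_dvd]
      unfold Int.ModEq
      rw [← ha1, ← hb1]
      exact_mod_cast Iff.rfl
    rw [← e1, show ((N : ℤ) + 1) ^ 2 - (-((N : ℤ) ^ 2 + 1)) = ((2 * N ^ 2 + 2 * N + 2 : ℕ) : ℤ) by
      push_cast; ring, Int.natCast_dvd_natCast]
  rw [h1, h2]
  unfold nu
  by_cases hab : a = b
  · rw [if_pos (h3.1 hab), hab]
    simp
  · rw [if_neg (fun h => hab (h3.2 h)), Finset.card_pair hab]

lemma nu_pos (N p : ℕ) (hp : p.Prime) : 1 ≤ nuB (Q (fm N)) p := by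
  rw [nu_eq N p hp]
  unfold nu
  split_ifs <;> norm_num

lemma nu_lt (N p : ℕ) (hp : p.Prime) : nuB (Q (fm N)) p < p := by
  rw [nu_eq N p hp]
  unfold nu
  have := hp.two_le
  split_ifs with h
  · omega
  · by_contra hcon
    have h2 : p = 2 := by omega
    apply h
    rw [h2]
    exact ⟨N ^ 2 + N + 1, by ring⟩

lemma us (N : ℕ) (hN : 10 ≤ N) (H U : ℝ) (hH : ((N : ℝ) + 1) ^ 2 ≤ H) (hU : U ≤ N) : US 2 1 H U (fm N) := by
  have hNr : (10 : ℝ) ≤ N := by exact_mod_cast hN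
  have hNz : (10 : ℤ) ≤ N := by exact_mod_cast hN
  have hbig : (1 : ℝ) ≤ ((N : ℝ) + 1) ^ 2 := by nlinarith
  unfold fm
  apply us_lf
  · intro i
    fin_cases i
    · show (1 : ℤ) ≠ 0
      norm_num
    · show (-1 : ℤ) ≠ 0
      norm_num
  · intro i
    fin_cases i
    · exact isCoprime_one_left
    · exact (isCoprime_one_left).neg_left
  · intro i
    fin_cases i
    · show |((1 : ℤ) : ℝ)| ≤ H
      rw [Int.cast_one, abs_one]
      linarith
    · show |((-1 : ℤ) : ℝ)| ≤ H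
      rw [Int.cast_neg, Int.cast_one, abs_neg, abs_one]
      linarith
  · intro i
    fin_cases i
    · show |(((N : ℤ) ^ 2 + 1 : ℤ) : ℝ)| ≤ H
      push_cast
      rw [abs_of_pos (by positivity)]
      nlinarith
    · show |((((N : ℤ) + 1) ^ 2 : ℤ) : ℝ)| ≤ H
      push_cast
      rw [abs_of_pos (by positivity)]
      exact hH
  · intro p hp
    -- a class which is not excluded
    classical
    have h1 := nu_lt N p hp
    have h2 : ∃ x ∈ range p, ¬ Q (fm N) p x := by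
      by_contra hcon
      push Not at hcon
      have h3 : nuB (Q (fm N)) p = ((range p).filter (fun r => Q (fm N) p r)).card := by
        unfold nuB
        exact card_iff _ _ (fun r _ => Iff.rfl)
      rw [Finset.filter_true_of_mem hcon, Finset.card_range] at h3
      omega
    obtain ⟨x, _, hx⟩ := h2
    refine ⟨x, fun i hi => hx ?_⟩
    unfold Q fm
    exact ⟨i, by rw [lf_eval]; exact hi⟩
  · intro i j t ht htU
    have ht1 : (1 : ℤ) ≤ t := by exact_mod_cast ht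
    have htN : (t : ℤ) ≤ N := by
      have : (t : ℝ) ≤ N := htU.trans hU
      exact_mod_cast this
    fin_cases i <;> fin_cases j
    · show ¬ ((1 : ℤ) = 1 ∧ (N : ℤ) ^ 2 + 1 = (N : ℤ) ^ 2 + 1 + 1 * t) ∧
        ¬ ((1 : ℤ) = -1 ∧ (N : ℤ) ^ 2 + 1 = -((N : ℤ) ^ 2 + 1 + 1 * t))
      constructor
      · rintro ⟨_, h⟩
        linarith
      · rintro ⟨h, _⟩
        norm_num at h
    · show ¬ ((1 : ℤ) = -1 ∧ (N : ℤ) ^ 2 + 1 = ((N : ℤ) + 1) ^ 2 + -1 * t) ∧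
        ¬ ((1 : ℤ) = -(-1) ∧ (N : ℤ) ^ 2 + 1 = -(((N : ℤ) + 1) ^ 2 + -1 * t))
      constructor
      · rintro ⟨h, _⟩
        norm_num at h
      · rintro ⟨_, h⟩
        nlinarith
    · show ¬ ((-1 : ℤ) = 1 ∧ ((N : ℤ) + 1) ^ 2 = (N : ℤ) ^ 2 + 1 + 1 * t) ∧
        ¬ ((-1 : ℤ) = -1 ∧ ((N : ℤ) + 1) ^ 2 = -((N : ℤ) ^ 2 + 1 + 1 * t))
      constructor
      · rintro ⟨h, _⟩
        norm_num at h
      · rintro ⟨_, h⟩
        nlinarith
    · show ¬ ((-1 : ℤ) = -1 ∧ ((N : ℤ) + 1) ^ 2 = ((N : ℤ) + 1) ^ 2 + -1 * t) ∧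
        ¬ ((-1 : ℤ) = -(-1) ∧ ((N : ℤ) + 1) ^ 2 = -(((N : ℤ) + 1) ^ 2 + -1 * t))
      constructor
      · rintro ⟨_, h⟩
        linarith
      · rintro ⟨h, _⟩
        norm_num at h

/-- **Almost prime pairs with fixed sum between consecutive squares.** For all `θ, ε > 0`, `x₀` and `k₀` there is
`r₀` such that for every `r ≥ r₀` there is `κ > 0` such that for EVERY large `N`: (1) if `2 ≤ k ≤ 2 N` and
`N ^ 2 + k + 1`, `(N + 1) ^ 2 - k` are prime, `k` is good; (2) if `k ≤ 2 N` is good, both numbers have at most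
`2 r + 1` prime factors; (3) `κ / log N ^ 3 ≤ V`; (4) in every interval `(u, u + Y]` with `Y ≥ N ^ θ`, for all `T`
and all `j ≤ k₀` (and for all `j` if `T V ≤ x₀`), the number of the good `k` with fewer than `j` good numbers in
`[k - T, k)` is `Y V (e ^ (-TV) ∑ i < j, (TV) ^ i / i! + η)` with `|η| ≤ ε`. -/
theorem result (θ ε x₀ : ℝ) (k₀ : ℕ) (hθ : 0 < θ) (hε : 0 < ε) :
    ∃ r₀ : ℕ, ∀ r : ℕ, r₀ ≤ r → ∃ κ : ℝ, 0 < κ ∧ ∃ N₀ : ℕ, ∀ N : ℕ, N₀ ≤ N →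
      (∀ k : ℕ, 2 ≤ k → k ≤ 2 * N → (N ^ 2 + k + 1).Prime → ((N + 1) ^ 2 - k).Prime → Good N r k) ∧
      (∀ k : ℕ, k ≤ 2 * N → Good N r k → (N ^ 2 + k + 1).primeFactorsList.length ≤ 2 * r + 1 ∧
        ((N + 1) ^ 2 - k).primeFactorsList.length ≤ 2 * r + 1) ∧
      κ / Real.log N ^ 3 ≤ V N r ∧
      ∀ u Y j T : ℕ, (N : ℝ) ^ θ ≤ Y → (j ≤ k₀ ∨ T * V N r ≤ x₀) →
        |(Near N r j T u Y : ℝ) - Y * V N r *
            ∑ i ∈ range j, Real.exp (-(T * V N r)) * (T * V N r) ^ i / i.factorial| ≤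
          ε * (Y * V N r) := by
  obtain ⟨r1, h1⟩ := gap_polys 2 1 3 1 θ (by norm_num) one_pos hθ k₀ x₀ ε hε
  refine ⟨max r1 2, ?_⟩
  intro r hr
  have hr2 : 2 ≤ r := (le_max_right _ _).trans hr
  have hrr : (2 : ℝ) ≤ r := by exact_mod_cast hr2
  obtain ⟨v, hv, hVlow⟩ := V_low_log (2 * 1 + 1) r hr2
  obtain ⟨C, hC, hV⟩ := V_up_base 1 one_pos r hr2
  refine ⟨v, hv, ?_⟩
  have hz : ∀ᶠ p : ℕ in atTop, (9 : ℝ) < (p : ℝ) ^ (1 / (r : ℝ)) :=
    ((tendsto_rpow_atTop (by positivity)).comp tendsto_natCast_atTop_atTop).eventually_gt_atTop _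
  obtain ⟨N0, hN0⟩ := eventually_atTop.1 ((h1 r ((le_max_left _ _).trans hr) C).and (hV.and
    (hz.and hVlow)))
  refine ⟨max N0 1000, ?_⟩
  intro N hN
  obtain ⟨h2, h3, h9, h4⟩ := hN0 N ((le_max_left _ _).trans hN)
  have hN1000 : 1000 ≤ N := (le_max_right _ _).trans hN
  have hNr : (1000 : ℝ) ≤ N := by exact_mod_cast hN1000
  have hpow : ((N : ℝ) ^ (1 / (r : ℝ))) ^ r = N := by
    rw [← Real.rpow_natCast, ← Real.rpow_mul (by linarith), one_div, inv_mul_cancel₀ (by linarith),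
      Real.rpow_one]
  have hzN : (N : ℝ) ^ (1 / (r : ℝ)) ≤ N := by
    calc (N : ℝ) ^ (1 / (r : ℝ)) ≤ (N : ℝ) ^ (1 : ℝ) := by
          apply Real.rpow_le_rpow_of_exponent_le (by linarith)
          rw [div_le_one (by linarith)]
          linarith
      _ = N := Real.rpow_one _
  have hus : US 2 1 ((N : ℝ) ^ (3 : ℝ)) ((N : ℝ) ^ (1 : ℝ)) (fm N) := by
    apply us N (by omega)
    · have e : (N : ℝ) ^ (3 : ℝ) = (N : ℝ) ^ 3 := by
        rw [← Real.rpow_natCast]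
        norm_num
      rw [e]
      have h5 : ((N : ℝ) + 1) ^ 2 ≤ (2 * N) ^ 2 := by
        apply pow_le_pow_left₀ (by linarith)
        linarith
      have h6 : (N : ℝ) ^ 2 * 1000 ≤ (N : ℝ) ^ 3 := by
        rw [pow_succ (N : ℝ) 2]
        exact mul_le_mul_of_nonneg_left hNr (by positivity)
      have h7 : 0 < (N : ℝ) ^ 2 := by positivity
      have h8 : (2 * (N : ℝ)) ^ 2 = 4 * (N : ℝ) ^ 2 := by ring
      linarith
    · rw [Real.rpow_one]
  have hVq : V N r = Vq (Q (fm N)) ⌊(N : ℝ) ^ (1 / (r : ℝ))⌋₊ := by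
    unfold V Vq
    apply Finset.prod_congr rfl
    intro p hp
    rw [nu_eq N p (mem_pz.1 hp).2]
  have hVup := h3 _ (fun p hp _ => nu_pos N p hp)
  have hfew : ∀ m : ℕ, m ≠ 0 → m ≤ 9 * N ^ 2 →
      (∀ p : ℕ, p.Prime → (p : ℝ) ≤ (N : ℝ) ^ (1 / (r : ℝ)) → ¬ p ∣ m) →
      m.primeFactorsList.length ≤ 2 * r + 1 := by
    intro m hm0 hm hmr
    refine few_of_rough ((N : ℝ) ^ (1 / (r : ℝ))) (by linarith) m (2 * r + 1) hm0 ?_ ?_
    · rw [pow_succ, mul_comm 2 r, pow_mul, hpow]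
      have h5 : (m : ℝ) ≤ 9 * (N : ℝ) ^ 2 := by exact_mod_cast hm
      have h6 : (N : ℝ) ^ 2 * 9 ≤ (N : ℝ) ^ 2 * (N : ℝ) ^ (1 / (r : ℝ)) :=
        mul_le_mul_of_nonneg_left h9.le (by positivity)
      linarith
    · intro q hq hqm
      by_contra hcon
      rw [not_lt] at hcon
      exact hmr q hq hcon hqm
  have hsq : (N + 1) ^ 2 = N ^ 2 + 2 * N + 1 := by ring
  have hN2 : 1000 * N ≤ N ^ 2 := by
    rw [sq]
    exact Nat.mul_le_mul_right N hN1000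
  refine ⟨?_, ?_, ?_, ?_⟩
  · intro k hk2 hk p1 p2 q hq hqz
    have hqN : q ≤ N := by
      have : (q : ℝ) ≤ N := hqz.trans hzN
      exact_mod_cast this
    constructor
    · intro hd
      have h5 : (q : ℤ) ∣ ((N ^ 2 + k + 1 : ℕ) : ℤ) := by
        push_cast
        exact hd
      have h6 := (Nat.prime_dvd_prime_iff_eq hq p1).1 (Int.natCast_dvd_natCast.1 h5)
      omega
    · intro hd
      have h5 : (q : ℤ) ∣ (((N + 1) ^ 2 - k : ℕ) : ℤ) := by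
        rw [Nat.cast_sub (by omega)]
        push_cast
        exact hd
      have h6 := (Nat.prime_dvd_prime_iff_eq hq p2).1 (Int.natCast_dvd_natCast.1 h5)
      omega
  · intro k hk hg
    constructor
    · refine hfew _ (by omega) (by omega) ?_
      intro p hp hpz hd
      apply (hg p hp hpz).1
      have h5 : (p : ℤ) ∣ ((N ^ 2 + k + 1 : ℕ) : ℤ) := Int.natCast_dvd_natCast.2 hd
      push_cast at h5
      exact h5
    · refine hfew _ (by omega) (by omega) ?_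
      intro p hp hpz hd
      apply (hg p hp hpz).2
      have h5 : (p : ℤ) ∣ (((N + 1) ^ 2 - k : ℕ) : ℤ) := Int.natCast_dvd_natCast.2 hd
      rw [Nat.cast_sub (by omega)] at h5
      push_cast at h5
      exact h5
  · rw [hVq]
    simpa using h4 (Q (fm N)) (us_perB hus) (us_adm hus)
  · intro u Y j T hY hj
    rw [hVq] at hj ⊢
    have h4 := h2 (fm N) hus hVup u Y hY j T hj
    have e : (Near N r j T u Y) = Pk (Sf (Q (fm N)) ⌊(N : ℝ) ^ (1 / (r : ℝ))⌋₊) j T u Y := by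
      have e1 : Sf (Q (fm N)) ⌊(N : ℝ) ^ (1 / (r : ℝ))⌋₊ = Good N r :=
        funext fun n => propext (good_iff N r n).symm
      rw [e1]
      rfl
    rw [e]
    exact h4

end Pool.Agent.Results.MP_e94e4b_nt.GapLawFixedSum
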