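import Pool.Agent.Y816.PD.UniL

set_option autoImplicit false

/-!
# The pairs `N ^ 2 + k + 1`, `(N + 1) ^ 2 - k` of almost primes with restricted digits of `k`

For every large `N` the integers `k < b ^ K`, `K = log_b (2 N)` (integer part), whose `i`-th digit in base `b` belongs
to an arbitrary set `A i` for all `i < K` are considered, the product of the `|A i|` being at least
`exp (- c K) b ^ K`.
-/

namespace Pool.Agent.Results.MP_e94e4b_nt.RestrictedDigits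

open Finset Filter Polynomial
open Pool.Agent.Y816.PD (ND NA Alm Rgh WG)

/-- The product of the two numbers. -/
def G (N k : ℕ) : ℤ := ((N : ℤ) ^ 2 + k + 1) * (((N : ℤ) + 1) ^ 2 - k)

lemma adm (N : ℕ) (p : ℕ) (hp : p.Prime) : ∃ k : ℕ, ¬ (p : ℤ) ∣ G N k := by
  rcases Nat.lt_or_ge p 3 with h3 | h3
  · have hp2 : p = 2 := by have := hp.two_le; omega
    subst hp2
    have hpz := Nat.prime_iff_prime_int.1 Nat.prime_two
    refine ⟨N, fun h => ?_⟩
    unfold G at h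
    have hev : Even ((N : ℤ) * (N + 1)) := Int.even_mul_succ_self N
    obtain ⟨M, hM⟩ := hev
    rcases hpz.dvd_or_dvd h with h1 | h1
    · obtain ⟨t, ht⟩ := h1
      have : (N : ℤ) ^ 2 + N + 1 = (M + M) + 1 := by rw [← hM]; ring
      rw [this] at ht
      push_cast at ht
      omega
    · obtain ⟨t, ht⟩ := h1
      have : ((N : ℤ) + 1) ^ 2 - N = (M + M) + 1 := by rw [← hM]; ring
      rw [this] at ht
      push_cast at ht
      omega
  · obtain ⟨k, hk⟩ := Pool.Agent.Y816.PD.adm_two hp h3 ((N : ℤ) ^ 2 + 1) (((N : ℤ) + 1) ^ 2)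
    refine ⟨k, ?_⟩
    unfold G
    have : (N : ℤ) ^ 2 + k + 1 = (N : ℤ) ^ 2 + 1 + k := by ring
    rw [this]
    exact hk

/-- **Pairs `N ^ 2 + k + 1`, `(N + 1) ^ 2 - k` of almost primes with restricted digits of `k`.** -/
theorem result :
    ∃ c : ℝ, 0 < c ∧ ∃ r₀ : ℕ, 2 ≤ r₀ ∧ ∀ r : ℕ, r₀ ≤ r →
      (∀ N k : ℕ, k ≤ 2 * N → (N ^ 2 + k + 1).Prime → ((N + 1) ^ 2 - k).Prime → k ∈ Rgh (G N) r) ∧
      ∀ b : ℕ, 2 ≤ b → ∃ κ C : ℝ, 0 < κ ∧ 0 < C ∧ ∀ᶠ N : ℕ in atTop, ∀ K : ℕ, K = Nat.log b (2 * N) →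
        ∀ A : ℕ → Finset ℕ, (∀ i < K, A i ⊆ range b) → (b : ℝ) ^ K ≤ Real.exp (c * K) * NA K A →
        ((∃ d ∈ A 0, (G N d).natAbs.Coprime b) → (∃ d ∈ A (K - 1), d ≠ 0) →
          κ * NA K A * WG (G N) (b ^ K) ≤
            ND b K A {k | (2 ≤ k ∧ k ≤ 2 * N) ∧ k ∈ Alm (G N) r (b ^ K)}) ∧
        (ND b K A (Rgh (G N) r) : ℝ) ≤ C * NA K A * WG (G N) (b ^ K) := by
  obtain ⟨c, hc, r₀, hr₀, h⟩ := Pool.Agent.Y816.PD.uni_top 2 8 (by norm_num)
  refine ⟨c, hc, r₀, hr₀, fun r hr => ⟨fun N k hk h1 h2 p hp hd => ?_, fun b hb => ?_⟩⟩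
  · have h2r : 2 ≤ r := hr₀.trans hr
    have hle : k ≤ (N + 1) ^ 2 := by nlinarith
    have h3 : G N k = (((N ^ 2 + k + 1) * ((N + 1) ^ 2 - k) : ℕ) : ℤ) := by
      unfold G
      push_cast [Nat.cast_sub hle]
      ring
    rw [h3, Int.natCast_dvd_natCast] at hd
    refine Pool.Agent.Y816.PD.lt_pow_of_le hp ?_ h2r
    rcases (hp.dvd_mul).1 hd with hd | hd
    · rw [(Nat.prime_dvd_prime_iff_eq hp h1).1 hd]
      omega
    · rw [(Nat.prime_dvd_prime_iff_eq hp h2).1 hd]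
      have : k + k ≤ (N + 1) ^ 2 := by
        rcases Nat.lt_or_ge N 2 with hN | hN
        · interval_cases N
          · omega
          · -- N = 1: k ≤ 2
            norm_num
            omega
        · nlinarith
      omega
  · obtain ⟨κ, C₁, hκ, hC, h1⟩ := h r hr b hb
    refine ⟨κ, C₁, hκ, hC, ?_⟩
    obtain ⟨K0, hK0⟩ := eventually_atTop.1 h1
    filter_upwards [eventually_ge_atTop (b ^ (K0 + 3))] with N hn K hK A hA hprod
    have hn1 : 1 ≤ N := le_trans (Nat.one_le_pow _ _ (by omega)) hn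
    have hKK : K0 + 3 ≤ K := by
      rw [hK]
      exact Nat.le_log_of_pow_le (by omega) (hn.trans (by omega))
    have hb1 : b ^ K ≤ 2 * N := by
      rw [hK]
      exact Nat.pow_log_le_self b (by omega)
    have hb2 : 2 * N < b ^ (K + 1) := by
      rw [hK]
      exact Nat.lt_pow_succ_log_self (by omega) _
    have hpoly : ∃ P : ℤ[X], P.natDegree ≤ 2 ∧ ∀ k : ℕ, P.eval (k : ℤ) = G N k := by
      refine ⟨(X + C ((N : ℤ) ^ 2 + 1)) * (C (((N : ℤ) + 1) ^ 2) - X), ?_, fun k => ?_⟩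
      · compute_degree
      · unfold G
        simp only [eval_mul, eval_add, eval_sub, eval_X, eval_C]
        ring
    have hsize : ∀ k : ℕ, k < b ^ K → (G N k).natAbs ≤ b ^ (8 * K) := by
      intro k hk
      have hle : k ≤ (N + 1) ^ 2 := by nlinarith
      have h3 : G N k = (((N ^ 2 + k + 1) * ((N + 1) ^ 2 - k) : ℕ) : ℤ) := by
        unfold G
        push_cast [Nat.cast_sub hle]
        ring
      rw [h3, Int.natAbs_natCast]
      obtain ⟨y, hy⟩ : ∃ y, y = b ^ (K + 1) := ⟨_, rfl⟩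
      rw [← hy] at hb2
      have e1 : b ^ (8 * K) = (b ^ (2 * K)) ^ 4 := by rw [← pow_mul]; congr 1; ring
      have e2 : y ≤ b ^ (2 * K) := by
        rw [hy]
        exact Nat.pow_le_pow_right (by omega) (by omega)
      have hkN : k < 2 * N := lt_of_lt_of_le hk hb1
      have h4 : N ^ 2 + k + 1 ≤ y * y := by nlinarith
      have h5 : (N + 1) ^ 2 - k ≤ y * y := by
        refine (Nat.sub_le _ _).trans ?_
        nlinarith
      calc (N ^ 2 + k + 1) * ((N + 1) ^ 2 - k) ≤ (y * y) * (y * y) := Nat.mul_le_mul h4 h5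
        _ = y ^ 4 := by ring
        _ ≤ (b ^ (2 * K)) ^ 4 := Nat.pow_le_pow_left e2 4
        _ = b ^ (8 * K) := e1.symm
    obtain ⟨h2, h3⟩ := hK0 K (by omega) (G N) hpoly (adm N) hsize A hA hprod
    refine ⟨fun hd htop => (h2 hd htop).trans ?_, h3⟩
    apply Nat.cast_le.2
    apply Pool.Agent.Y816.PD.ND_mono'
    intro k hkK hk
    refine ⟨⟨?_, ?_⟩, hk.2⟩
    · refine le_trans ?_ hk.1
      calc 2 ≤ b := hb
        _ ≤ b ^ (K - 1) := Nat.le_self_pow (by omega) b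
    · omega

end Pool.Agent.Results.MP_e94e4b_nt.RestrictedDigits
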