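import Pool.Agent.Y987.SZ.Low
import Pool.Agent.Y987.SZ.Lin

set_option autoImplicit false

/-!
# Pairs of almost primes `N² + m + 1`, `(N + 1)² - m`, and progressions of such `m`
-/

namespace Pool.Agent.Results.MP_e94e4b_nt.SymmetricAlmostPrimes

/-- Both numbers `N² + m + 1` and `(N + 1)² - m`, `2 ≤ m ≤ 2 N`, have no prime factor `≤ y`. -/
def Rough (N : ℕ) (y : ℝ) (m : ℕ) : Prop :=
  2 ≤ m ∧ m ≤ 2 * N ∧ ∀ p : ℕ, p.Prime → (p ∣ N ^ 2 + m + 1 ∨ p ∣ (N + 1) ^ 2 - m) → y < (p : ℝ)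

/-- Both numbers `N² + m + 1` and `(N + 1)² - m`, `2 ≤ m ≤ 2 N`, have at most `r` prime factors (with
multiplicity), all larger than `y`. -/
def Pair (N r : ℕ) (y : ℝ) (m : ℕ) : Prop :=
  Rough N y m ∧ (N ^ 2 + m + 1).primeFactorsList.length ≤ r ∧
    ((N + 1) ^ 2 - m).primeFactorsList.length ≤ r

/-- the number of the classes `c` modulo `p` for which `p` divides `(N² + c + 1) ((N + 1)² - c)` -/
def nu (N p : ℕ) : ℕ :=
  ((Finset.range p).filter (fun c => p ∣ N ^ 2 + c + 1 ∨ c = (N + 1) ^ 2 % p)).card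

/-- the sieve density: the product of `1 - ν(p) / p` over the primes `p ≤ y` -/
noncomputable def V (N : ℕ) (y : ℝ) : ℝ :=
  ∏ p ∈ (Finset.Ioc 0 ⌊y⌋₊).filter Nat.Prime, (1 - (nu N p : ℝ) / p)

/-- `m` is a term of a progression of `k` terms of `S` with a difference `d`, `1 ≤ d ≤ L`. -/
def InProgression (k : ℕ) (L : ℝ) (S : Set ℕ) (m : ℕ) : Prop :=
  ∃ a d : ℕ, 1 ≤ d ∧ (d : ℝ) ≤ L ∧ (∀ j < k, a + j * d ∈ S) ∧ ∃ j < k, m = a + j * d

open Finset Filter
open Pool.Agent.Y987.SZ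
open Pool.Agent.Y843.HS (Pr VV)

/-- the classes -/
def Zc (N p : ℕ) : Finset ℕ :=
  (Finset.range p).filter (fun c => p ∣ N ^ 2 + c + 1 ∨ c = (N + 1) ^ 2 % p)

lemma V_eq (N : ℕ) (y : ℝ) : V N y = VV (Zc N) 0 ⌊y⌋₊ := rfl

lemma first_root {N p : ℕ} (hp : p.Prime) : ((range p).filter (fun c => p ∣ N ^ 2 + c + 1)).card = 1 := by
  have h := Pool.Agent.Y829.one_root hp (Nat.coprime_one_left p) (N ^ 2 + 1)
  refine (congrArg Finset.card (filter_congr fun c _ => ?_)).trans h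
  have : N ^ 2 + c + 1 = N ^ 2 + 1 + 1 * c := by ring
  rw [this]

lemma card_le {N p : ℕ} (hp : p.Prime) : (Zc N p).card ≤ 2 := by
  have h1 : Zc N p ⊆ (range p).filter (fun c => p ∣ N ^ 2 + c + 1) ∪ {(N + 1) ^ 2 % p} := by
    intro c hc
    have hc' := mem_filter.1 hc
    rw [mem_union, mem_filter, mem_singleton]
    rcases hc'.2 with h | h
    · exact Or.inl ⟨hc'.1, h⟩
    · exact Or.inr h
  calc (Zc N p).card ≤ _ := card_le_card h1
    _ ≤ ((range p).filter (fun c => p ∣ N ^ 2 + c + 1)).card + ({(N + 1) ^ 2 % p} : Finset ℕ).card :=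
        card_union_le _ _
    _ = 2 := by rw [first_root hp, card_singleton]

lemma adm (N : ℕ) (y : ℝ) : Adm 2 y (Zc N) := by
  intro p hp _
  refine ⟨card_le hp, ?_, fun c hc => mem_range.1 (mem_filter.1 hc).1⟩
  by_cases h2 : p = 2
  · subst h2
    have h1 : Zc N 2 ⊆ (range 2).filter (fun c => 2 ∣ N ^ 2 + c + 1) := by
      intro c hc
      have hc' := mem_filter.1 hc
      rw [mem_filter]
      refine ⟨hc'.1, ?_⟩
      rcases hc'.2 with h | h
      · exact h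
      · have e1 : (N + 1) ^ 2 = N ^ 2 + 1 + 2 * N := by ring
        have e2 : (N + 1) ^ 2 % 2 = (N ^ 2 + 1) % 2 := by
          rw [e1]
          omega
        rw [e2] at h
        omega
    have := card_le_card h1
    rw [first_root Nat.prime_two] at this
    omega
  · have := card_le (N := N) hp
    have h3 : 2 < p := lt_of_le_of_ne hp.two_le (Ne.symm h2)
    omega

/-- a rough `m` avoids the classes -/
lemma rough_avoid {N m : ℕ} {y : ℝ} (h : Rough N y m) : Avoid y (Zc N) m := by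
  intro p hp hpy hmem
  have h1 := (mem_filter.1 hmem).2
  have hm2 := h.2.1
  have hbig : m ≤ (N + 1) ^ 2 := by nlinarith
  have : p ∣ N ^ 2 + m + 1 ∨ p ∣ (N + 1) ^ 2 - m := by
    rcases h1 with h1 | h1
    · left
      have e1 : N ^ 2 + m + 1 = (N ^ 2 + m % p + 1) + p * (m / p) := by
        have := Nat.mod_add_div m p
        omega
      rw [e1]
      exact dvd_add h1 (dvd_mul_right _ _)
    · right
      exact (Nat.modEq_iff_dvd' hbig).1 h1
  have := h.2.2 p hp this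
  linarith

/-- an `m` which avoids the classes is rough -/
lemma avoid_rough {N m : ℕ} {y : ℝ} (h2 : 2 ≤ m) (hm : m ≤ 2 * N) (h : Avoid y (Zc N) m) :
    Rough N y m := by
  refine ⟨h2, hm, ?_⟩
  intro p hp hd
  by_contra hcon
  push Not at hcon
  apply h p hp hcon
  have hbig : m ≤ (N + 1) ^ 2 := by nlinarith
  refine mem_filter.2 ⟨mem_range.2 (Nat.mod_lt _ hp.pos), ?_⟩
  rcases hd with hd | hd
  · left
    have e1 : N ^ 2 + m + 1 = (N ^ 2 + m % p + 1) + p * (m / p) := by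
      have := Nat.mod_add_div m p
      omega
    rw [e1] at hd
    exact (Nat.dvd_add_left (dvd_mul_right _ _)).1 hd
  · right
    exact (Nat.modEq_iff_dvd' hbig).2 hd

lemma rough_fin (N : ℕ) (y : ℝ) (S : Set ℕ) (hS : ∀ m ∈ S, Rough N y m) : S.Finite :=
  (Set.finite_Icc 0 (2 * N)).subset (fun m hm => ⟨Nat.zero_le _, (hS m hm).2.1⟩)

lemma key (k : ℕ) (κ ε : ℝ) (hκ : 0 < κ) (hε : 0 < ε) : ∃ B n₀ : ℕ, ∀ N : ℕ, n₀ ≤ N →
    ∀ S : Set ℕ, (∀ m ∈ S, Rough N ((2 * N : ℝ) ^ κ) m) →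
      ({m ∈ S | ¬ InProgression (k + 1) (Real.log N ^ B) S m}.ncard : ℝ) ≤
        ε * (N * V N ((2 * N : ℝ) ^ κ)) := by
  classical
  obtain ⟨B, X₁, h⟩ := her (k + 1) 2 (by omega) κ (ε / 2) hκ (by positivity)
  refine ⟨2 * B, max X₁ 8, ?_⟩
  intro N hn S hS
  have hn8 : 8 ≤ N := (le_max_right _ _).trans hn
  have hnr : (8 : ℝ) ≤ N := by exact_mod_cast hn8
  have hSfin : S.Finite := rough_fin N _ S hS
  have hlog2 : 2 ≤ Real.log N := by
    have h1 : Real.log 8 ≤ Real.log N := Real.log_le_log (by norm_num) hnr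
    have h2 : Real.log 8 = 3 * Real.log 2 := by
      rw [show (8 : ℝ) = 2 ^ 3 by norm_num, Real.log_pow]
      norm_num
    have := Real.log_two_gt_d9
    linarith
  have hX2 : ((2 * N : ℕ) : ℝ) ≤ (N : ℝ) ^ 2 := by
    push_cast
    nlinarith
  have hlogX : Real.log ((2 * N : ℕ) : ℝ) ≤ Real.log N ^ 2 := by
    have h2 := Real.log_le_log (by push_cast; linarith) hX2
    rw [Real.log_pow] at h2
    push_cast at h2 ⊢
    nlinarith
  have hlogX0 : 0 ≤ Real.log ((2 * N : ℕ) : ℝ) := Real.log_nonneg (by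
    push_cast
    linarith)
  have hcast : ((2 * N : ℕ) : ℝ) = 2 * N := by push_cast; ring
  have h1 := h (2 * N) 0 (by have := le_max_left X₁ 8; omega) (Zc N) (adm N _) hSfin.toFinset
    (by
      intro m hm
      rw [Set.Finite.mem_toFinset] at hm
      have := (hS m hm)
      rw [Finset.mem_Ioc]
      have h1 := this.1
      have h2 := this.2.1
      omega)
    (by
      intro m hm
      rw [Set.Finite.mem_toFinset] at hm
      rw [hcast]
      exact rough_avoid (hS m hm))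
  have h2 : ({m ∈ S | ¬ InProgression (k + 1) (Real.log N ^ (2 * B)) S m}.ncard : ℝ) ≤
      ((hSfin.toFinset.filter (fun m =>
        ¬ InAP (k + 1) (Real.log ((2 * N : ℕ) : ℝ) ^ B) hSfin.toFinset m)).card : ℝ) := by
    rw [Nat.cast_le, ← Set.ncard_coe_finset]
    apply Set.ncard_le_ncard
    · intro m hm
      rw [mem_coe, mem_filter]
      refine ⟨(Set.Finite.mem_toFinset _).2 hm.1, ?_⟩
      intro hAP
      apply hm.2
      obtain ⟨a, d, i1, i2, i3, i4⟩ := hAP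
      refine ⟨a, d, i1, i2.trans ?_, fun j hj => (Set.Finite.mem_toFinset _).1 (i3 j hj), i4⟩
      rw [pow_mul]
      exact pow_le_pow_left₀ hlogX0 hlogX B
    · exact Finset.finite_toSet _
  refine h2.trans ?_
  have h3 : ((hSfin.toFinset.filter (fun m =>
        ¬ InAP (k + 1) (Real.log ((2 * N : ℕ) : ℝ) ^ B) hSfin.toFinset m)).card : ℝ) ≤
      ε / 2 * (((2 * N : ℕ) : ℝ) * VV (Zc N) 0 ⌊((2 * N : ℕ) : ℝ) ^ κ⌋₊) := by
    refine le_trans (le_of_eq ?_) h1
    congr!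
  refine h3.trans (le_of_eq ?_)
  rw [V_eq, hcast]
  ring

lemma len_le {x m : ℕ} {y : ℝ} (hy : 1 < y) (hm0 : m ≠ 0) {r : ℕ} (hm : (m : ℝ) < y ^ (r + 1))
    (hp : ∀ p : ℕ, p.Prime → p ∣ m → y < p) (_ : x = x) : m.primeFactorsList.length ≤ r := by
  by_contra hcon
  push Not at hcon
  have h2 : ∀ l : List ℕ, (∀ p ∈ l, y < p) → y ^ l.length ≤ (l.prod : ℕ) := by
    intro l
    induction l with
    | nil => intro _; simp
    | cons a l ih =>
      intro h
      have i1 := ih (fun p hp => h p (List.mem_cons_of_mem _ hp))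
      have i2 := h a List.mem_cons_self
      rw [List.length_cons, List.prod_cons, pow_succ, mul_comm, Nat.cast_mul]
      exact mul_le_mul i2.le i1 (by positivity) (by positivity)
  have h3 := h2 m.primeFactorsList (fun p hpm =>
    hp p (Nat.prime_of_mem_primeFactorsList hpm) (Nat.dvd_of_mem_primeFactorsList hpm))
  rw [Nat.prod_primeFactorsList hm0] at h3
  have h4 : y ^ (r + 1) ≤ y ^ m.primeFactorsList.length := pow_le_pow_right₀ hy.le (by omega)
  linarith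

lemma count : ∃ (κ c : ℝ) (r : ℕ), 0 < κ ∧ 0 < c ∧ ∃ n₀ : ℕ, ∀ N : ℕ, n₀ ≤ N →
    c * (N * V N ((2 * N : ℝ) ^ κ)) ≤ ({m | Pair N r ((2 * N : ℝ) ^ κ) m}.ncard : ℝ) ∧
      0 < V N ((2 * N : ℝ) ^ κ) := by
  classical
  obtain ⟨κ, c, X₀, hκ0, hκ1, hc, h⟩ := low 2
  obtain ⟨κ', c', X₀', hκ0', hκ1', hc', h'⟩ := low 2
  -- the number of prime factors
  obtain ⟨r, hr⟩ := exists_nat_gt (3 / κ)
  -- `V` is not too small, through the lower bound sieve itself: the number of all `m` is at least one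
  have hlow : ∃ n₁ : ℕ, ∀ N : ℕ, n₁ ≤ N → 1 ≤ c / 2 * (((2 * N : ℕ) : ℝ) *
      VV (Zc N) 0 ⌊((2 * N : ℕ) : ℝ) ^ κ⌋₊) := by
    obtain ⟨c1, C1, hc1, hC1, hm⟩ := mert
    obtain ⟨X1, hX1⟩ := log_floor κ hκ0 hκ1
    -- crude bound: `VV ≥ c1 ^ 4 / (log X) ^ 4 / 100`
    have ht : Tendsto (fun X : ℕ => Real.log X ^ 4 / (X : ℝ)) atTop (nhds 0) :=
      (Real.isLittleO_pow_log_id_atTop (n := 4)).tendsto_div_nhds_zero.comp
        tendsto_natCast_atTop_atTop
    obtain ⟨X2, hX2⟩ := (ht.eventually_le_const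
      (show (0 : ℝ) < c / 2 * (c1 ^ 4 / 12) by positivity)).exists_forall_of_atTop
    refine ⟨max X1 (max X2 2), ?_⟩
    intro N hN
    have hN2 : 2 ≤ N := (le_max_right _ _).trans ((le_max_right _ _).trans hN)
    obtain ⟨h3, h4, h5, h6⟩ := hX1 (2 * N) (by have := le_max_left X1 (max X2 2); omega)
    have h7 := hX2 (2 * N) (by
      have h1 := le_max_left X2 2
      have h2 := le_max_right X1 (max X2 2)
      omega)
    set X := 2 * N with hX
    set y := ⌊(X : ℝ) ^ κ⌋₊ with hy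
    have hXpos : (0 : ℝ) < X := by exact_mod_cast (by omega : 0 < X)
    have hly : 0 < Real.log y := lt_of_lt_of_le (by positivity) h4
    have hy0 : (0 : ℝ) ≤ (X : ℝ) ^ κ := by positivity
    have e1 : c1 ^ 4 / Real.log X ^ 4 / 12 ≤ VV (Zc N) 0 y := by
      have e2 : (c1 / Real.log y) ^ 4 ≤ ∏ p ∈ Pr 0 y, (1 - 1 / (p : ℝ)) ^ 4 := by
        rw [prod_pow]
        exact pow_le_pow_left₀ (by positivity) (hm y h3).1 4
      -- `(1 - 1/p)^4 ≤ (1 - ν/p)` for `p ≥ 5`, and for `2`, `3` with the constants `2`, `6`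
      have e3 : ∏ p ∈ Pr 0 y, (1 - 1 / (p : ℝ)) ^ 4 ≤ VV (Zc N) 0 y := by
        unfold VV
        apply Finset.prod_le_prod
        · intro p _
          positivity
        · intro p hp
          rw [hy, mem_Pr0 hy0] at hp
          have ha := adm N p p hp.1 le_rfl
          have hp2 : (2 : ℝ) ≤ p := by exact_mod_cast hp.1.two_le
          have hx0 : (0 : ℝ) < p := by linarith
          by_cases h2 : p = 2
          · have hcard : ((Zc N p).card : ℝ) ≤ 1 := by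
              have := ha.2.1
              exact_mod_cast (by omega : (Zc N p).card ≤ 1)
            have : ((Zc N p).card : ℝ) / p ≤ 1 / p := div_le_div_of_nonneg_right hcard hx0.le
            have hx : (0 : ℝ) ≤ 1 - 1 / p := by
              have : 1 / (p : ℝ) ≤ 1 := by
                rw [div_le_one hx0]
                linarith
              linarith
            have hx1 : (1 : ℝ) - 1 / p ≤ 1 := by
              have : (0 : ℝ) ≤ 1 / p := by positivity
              linarith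
            calc (1 - 1 / (p : ℝ)) ^ 4 ≤ (1 - 1 / (p : ℝ)) ^ 1 :=
                  pow_le_pow_of_le_one hx hx1 (by norm_num)
              _ = 1 - 1 / (p : ℝ) := pow_one _
              _ ≤ _ := by linarith
          · have hp3 : (3 : ℝ) ≤ p := by
              exact_mod_cast lt_of_le_of_ne hp.1.two_le (Ne.symm h2)
            have hcard : ((Zc N p).card : ℝ) ≤ 2 := by exact_mod_cast ha.1
            have : ((Zc N p).card : ℝ) / p ≤ 2 / p := div_le_div_of_nonneg_right hcard hx0.le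
            have hx : (1 : ℝ) / p ≤ 1 / 3 := one_div_le_one_div_of_le (by norm_num) hp3
            have hx' : (0 : ℝ) ≤ 1 / p := by positivity
            have e4 : (2 : ℝ) / p = 2 * (1 / p) := by ring
            rw [e4] at this
            -- `(1 - x)^4 ≤ 1 - 2 x` for `0 ≤ x ≤ 1/3`
            have e5 : ∀ x : ℝ, 0 ≤ x → x ≤ 1 / 3 → (1 - x) ^ 4 ≤ 1 - 2 * x := by
              intro x h0 h1
              have : 1 - 2 * x - (1 - x) ^ 4 = x * (2 - 6 * x + 4 * x ^ 2 - x ^ 3) := by ring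
              have h2 : 0 ≤ 2 - 6 * x + 4 * x ^ 2 - x ^ 3 := by
                nlinarith [mul_nonneg h0 h0, mul_nonneg (mul_nonneg h0 h0) (sub_nonneg.2 h1)]
              nlinarith [mul_nonneg h0 h2]
            have := e5 _ hx' hx
            linarith
      refine le_trans ?_ (e2.trans e3)
      rw [div_pow]
      have e6 : c1 ^ 4 / Real.log X ^ 4 ≤ c1 ^ 4 / Real.log y ^ 4 := by
        apply div_le_div_of_nonneg_left (by positivity) (by positivity)
        exact pow_le_pow_left₀ hly.le h5 4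
      have e7 : 0 ≤ c1 ^ 4 / Real.log X ^ 4 := by positivity
      linarith
    have e8 : 1 ≤ c / 2 * ((X : ℝ) * (c1 ^ 4 / Real.log X ^ 4 / 12)) := by
      rw [div_le_iff₀ hXpos] at h7
      have hl4 : 0 < Real.log X ^ 4 := by positivity
      have : c / 2 * ((X : ℝ) * (c1 ^ 4 / Real.log X ^ 4 / 12)) =
          (c / 2 * (c1 ^ 4 / 12) * X) / Real.log X ^ 4 := by ring
      rw [this, le_div_iff₀ hl4, one_mul]
      exact h7
    refine e8.trans ?_
    apply mul_le_mul_of_nonneg_left _ (by positivity)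
    exact mul_le_mul_of_nonneg_left e1 hXpos.le
  obtain ⟨n₁, hn₁⟩ := hlow
  -- `(2N)^κ > 1` and `(N+1)^2 < ((2N)^κ)^(r+1)`
  refine ⟨κ, c, r, hκ0, hc, max (max X₀ n₁) 4, ?_⟩
  intro N hN
  have hN4 : 4 ≤ N := (le_max_right _ _).trans hN
  have hNX : X₀ ≤ N := (le_max_left _ _).trans ((le_max_left _ _).trans hN)
  have hNn : n₁ ≤ N := (le_max_right _ _).trans ((le_max_left _ _).trans hN)
  have hNr : (4 : ℝ) ≤ N := by exact_mod_cast hN4
  have hcast : ((2 * N : ℕ) : ℝ) = 2 * N := by push_cast; ring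
  have hy1 : (1 : ℝ) < (2 * N : ℝ) ^ κ := Real.one_lt_rpow (by linarith) hκ0
  have hbig : (2 * N : ℝ) ^ 3 < ((2 * N : ℝ) ^ κ) ^ (r + 1) := by
    rw [← Real.rpow_natCast, ← Real.rpow_natCast, ← Real.rpow_mul (by linarith)]
    apply Real.rpow_lt_rpow_of_exponent_lt (by linarith)
    rw [div_lt_iff₀ hκ0] at hr
    push_cast
    nlinarith
  have h1 := h (2 * N) 0 (by omega) (Zc N) (adm N _)
  have h2 := hn₁ N hNn
  have hVpos : 0 < VV (Zc N) 0 ⌊((2 * N : ℕ) : ℝ) ^ κ⌋₊ := VV_pos (adm N _) (by positivity) 0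
  have hfin : {m | Pair N r ((2 * N : ℝ) ^ κ) m}.Finite :=
    rough_fin N ((2 * N : ℝ) ^ κ) _ (fun m hm => hm.1)
  have hle : ((Ioc 0 (0 + 2 * N)).filter (fun n => Avoid (((2 * N : ℕ) : ℝ) ^ κ) (Zc N) n)).card ≤
      {m | Pair N r ((2 * N : ℝ) ^ κ) m}.ncard + 1 := by
    have hsub : (Ioc 0 (0 + 2 * N)).filter (fun n => Avoid (((2 * N : ℕ) : ℝ) ^ κ) (Zc N) n) ⊆
        hfin.toFinset ∪ {1} := by
      intro m hm
      rw [mem_filter, mem_Ioc, hcast] at hm
      rw [mem_union, mem_singleton, Set.Finite.mem_toFinset]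
      by_cases hm1 : m = 1
      · exact Or.inr hm1
      · left
        have hR := avoid_rough (y := (2 * N : ℝ) ^ κ) (by omega) (by omega) hm.2
        have hm2 : m ≤ 2 * N := by omega
        refine ⟨hR, ?_, ?_⟩
        · apply len_le (x := 0) hy1 (by omega) _ (fun p hp hd => hR.2.2 p hp (Or.inl hd)) rfl
          refine lt_of_le_of_lt ?_ hbig
          have e1 : N ^ 2 + m + 1 ≤ (2 * N) ^ 3 := by nlinarith [Nat.pow_le_pow_left hN4 2]
          calc ((N ^ 2 + m + 1 : ℕ) : ℝ) ≤ (((2 * N) ^ 3 : ℕ) : ℝ) := by exact_mod_cast e1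
            _ = (2 * N : ℝ) ^ 3 := by push_cast; ring
        · have e0 : m < (N + 1) ^ 2 := by nlinarith
          apply len_le (x := 0) hy1 (by omega) _ (fun p hp hd => hR.2.2 p hp (Or.inr hd)) rfl
          refine lt_of_le_of_lt ?_ hbig
          have e1 : (N + 1) ^ 2 - m ≤ (2 * N) ^ 3 := by
            have : (N + 1) ^ 2 ≤ (2 * N) ^ 3 := by nlinarith [Nat.pow_le_pow_left hN4 2]
            omega
          calc (((N + 1) ^ 2 - m : ℕ) : ℝ) ≤ (((2 * N) ^ 3 : ℕ) : ℝ) := by exact_mod_cast e1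
            _ = (2 * N : ℝ) ^ 3 := by push_cast; ring
    calc _ ≤ (hfin.toFinset ∪ {1}).card := card_le_card hsub
      _ ≤ hfin.toFinset.card + ({1} : Finset ℕ).card := card_union_le _ _
      _ = _ := by rw [Set.ncard_eq_toFinset_card _ hfin, card_singleton]
  have hle' : (((Ioc 0 (0 + 2 * N)).filter (fun n => Avoid (((2 * N : ℕ) : ℝ) ^ κ) (Zc N) n)).card : ℝ) ≤
      {m | Pair N r ((2 * N : ℝ) ^ κ) m}.ncard + 1 := by
    exact_mod_cast hle
  have h3 : c * (((2 * N : ℕ) : ℝ) * VV (Zc N) 0 ⌊((2 * N : ℕ) : ℝ) ^ κ⌋₊) ≤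
      (((Ioc 0 (0 + 2 * N)).filter (fun n => Avoid (((2 * N : ℕ) : ℝ) ^ κ) (Zc N) n)).card : ℝ) := by
    refine h1.trans (le_of_eq ?_)
    congr!
  rw [V_eq]
  rw [hcast] at h2 h3 hVpos
  refine ⟨?_, hVpos⟩
  rw [hcast] at hle'
  have e9 : c * ((2 * (N : ℝ)) * VV (Zc N) 0 ⌊(2 * N : ℝ) ^ κ⌋₊) =
      c / 2 * ((2 * (N : ℝ)) * VV (Zc N) 0 ⌊(2 * N : ℝ) ^ κ⌋₊) +
      c * (N * VV (Zc N) 0 ⌊(2 * N : ℝ) ^ κ⌋₊) := by ring
  linarith

/-- **Pairs of almost primes with the sum `2 N² + 2 N + 2` between `N²` and `(N + 1)²`.** -/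
theorem result : ∃ (κ₀ c : ℝ) (r : ℕ), 0 < κ₀ ∧ 0 < c ∧ ∀ k : ℕ, ∀ κ ε : ℝ, 0 < κ → 0 < ε →
    ∃ B N₀ : ℕ, ∀ N : ℕ, N₀ ≤ N →
      c * (N * V N ((2 * N : ℝ) ^ κ₀)) ≤ ({m | Pair N r ((2 * N : ℝ) ^ κ₀) m}.ncard : ℝ) ∧
      (∃ a d : ℕ, 1 ≤ d ∧ (d : ℝ) ≤ Real.log N ^ B ∧
        ∀ j < k, Pair N r ((2 * N : ℝ) ^ κ₀) (a + j * d)) ∧
      ∀ S : Set ℕ, (∀ m ∈ S, Rough N ((2 * N : ℝ) ^ κ) m) →
        ({m ∈ S | ¬ InProgression (k + 1) (Real.log N ^ B) S m}.ncard : ℝ) ≤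
          ε * (N * V N ((2 * N : ℝ) ^ κ)) := by
  obtain ⟨κ₀, c, r, hκ₀, hc, n₁, hn₁⟩ := count
  refine ⟨κ₀, c, r, hκ₀, hc, ?_⟩
  intro k κ ε hκ hε
  obtain ⟨B₁, n₂, h₂⟩ := key k κ ε hκ hε
  obtain ⟨B₂, n₃, h₃⟩ := key k κ₀ (c / 2) hκ₀ (by positivity)
  refine ⟨max B₁ B₂, max (max n₁ 3) (max n₂ n₃), ?_⟩
  intro n hn
  have g1 : n₁ ≤ n := (le_max_left _ _).trans ((le_max_left _ _).trans hn)
  have g0 : 3 ≤ n := (le_max_right _ _).trans ((le_max_left _ _).trans hn)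
  have g2 : n₂ ≤ n := (le_max_left _ _).trans ((le_max_right _ _).trans hn)
  have g3 : n₃ ≤ n := (le_max_right _ _).trans ((le_max_right _ _).trans hn)
  have hnr : (3 : ℝ) ≤ n := by exact_mod_cast g0
  have hlog1 : 1 ≤ Real.log n := by
    rw [Real.le_log_iff_exp_le (by linarith)]
    have := Real.exp_one_lt_d9
    linarith
  have hB : ∀ B, B ≤ max B₁ B₂ → Real.log n ^ B ≤ Real.log n ^ max B₁ B₂ :=
    fun B hB => pow_le_pow_right₀ hlog1 hB
  obtain ⟨c1, hVpos⟩ := hn₁ n g1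
  refine ⟨c1, ?_, ?_⟩
  · have c2 := h₃ n g3 {m | Pair n r ((2 * n : ℝ) ^ κ₀) m} (fun m hm => hm.1)
    have hpos : 0 < (n : ℝ) * V n ((2 * n : ℝ) ^ κ₀) := by positivity
    obtain ⟨m, hm, hAP⟩ : ∃ m ∈ {m | Pair n r ((2 * n : ℝ) ^ κ₀) m},
        InProgression (k + 1) (Real.log n ^ B₂) {m | Pair n r ((2 * n : ℝ) ^ κ₀) m} m := by
      by_contra hcon
      push Not at hcon
      have e1 : {m ∈ {m | Pair n r ((2 * n : ℝ) ^ κ₀) m} | ¬ InProgression (k + 1)
          (Real.log n ^ B₂) {m | Pair n r ((2 * n : ℝ) ^ κ₀) m} m} =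
          {m | Pair n r ((2 * n : ℝ) ^ κ₀) m} := by
        ext m
        constructor
        · intro h
          exact h.1
        · intro h
          exact ⟨h, hcon m h⟩
      rw [e1] at c2
      have : c * ((n : ℝ) * V n ((2 * n : ℝ) ^ κ₀)) ≤ c / 2 * (n * V n ((2 * n : ℝ) ^ κ₀)) :=
        c1.trans c2
      nlinarith
    obtain ⟨a, d, i1, i2, i3, _⟩ := hAP
    exact ⟨a, d, i1, i2.trans (hB _ (le_max_right _ _)), fun j hj => i3 j (by omega)⟩
  · intro S hS
    refine le_trans ?_ (h₂ n g2 S hS)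
    rw [Nat.cast_le]
    apply Set.ncard_le_ncard
    · intro m hm
      refine ⟨hm.1, ?_⟩
      intro hAP
      apply hm.2
      obtain ⟨a, d, i1, i2, i3⟩ := hAP
      exact ⟨a, d, i1, i2.trans (hB _ (le_max_left _ _)), i3⟩
    · exact (rough_fin n _ S hS).subset (fun m hm => hm.1)

end Pool.Agent.Results.MP_e94e4b_nt.SymmetricAlmostPrimes
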